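import Pool.Agent.Helper22.HL.GameDefs
import Pool.Agent.Helper22.OR.Fac
import Pool.Agent.Helper22.OR.Hopf

/-!
# Free bases of subgroups
-/

set_option autoImplicit false

namespace Pool.Agent.Helper22.HL

open Pool.Agent.Helper22.OR (Gen)
open Pool.Agent.Helper72.BH (Filled FilledLe)

variable {G G' : Type} [Group G] [Group G']

theorem lift_range {k : ℕ} (a : Fin k → G) : (FreeGroup.lift a).range = gp a := by
  rw [gp, MonoidHom.range_eq_map, ← FreeGroup.closure_range_of, MonoidHom.map_closure,
    ← Set.range_comp]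
  congr 1
  ext x
  simp

theorem mem_gp_iff {k : ℕ} (a : Fin k → G) (x : G) : x ∈ gp a ↔ ∃ w, FreeGroup.lift a w = x := by
  rw [← lift_range]
  rfl

theorem gp_le {k : ℕ} {a : Fin k → G} {A : Subgroup G} : gp a ≤ A ↔ ∀ i, a i ∈ A := by
  rw [gp, Subgroup.closure_le]
  constructor
  · exact fun h i => h ⟨i, rfl⟩
  · rintro h _ ⟨i, rfl⟩
    exact h i

theorem gp_map {k : ℕ} (φ : G →* G') (a : Fin k → G) : (gp a).map φ = gp (fun i => φ (a i)) := by
  rw [gp, MonoidHom.map_closure, ← Set.range_comp]
  rfl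

theorem gp_append {k l : ℕ} (a : Fin k → G) (b : Fin l → G) :
    gp (Fin.append a b) = gp a ⊔ gp b := by
  apply le_antisymm
  · rw [gp_le]
    intro i
    refine Fin.addCases (fun i => ?_) (fun i => ?_) i
    · rw [Fin.append_left]
      exact Subgroup.mem_sup_left (mem_gp a i)
    · rw [Fin.append_right]
      exact Subgroup.mem_sup_right (mem_gp b i)
  · refine sup_le (gp_le.mpr fun i => ?_) (gp_le.mpr fun i => ?_)
    · have := mem_gp (Fin.append a b) (Fin.castAdd l i)
      rwa [Fin.append_left] at this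
    · have := mem_gp (Fin.append a b) (Fin.natAdd k i)
      rwa [Fin.append_right] at this

theorem gp_gen {k : ℕ} (a : Fin k → G) : Gen k (gp a) := ⟨a, rfl⟩

theorem gp_fg {k : ℕ} (a : Fin k → G) : (gp a).FG := (gp_gen a).fg

theorem Gen.sup {j k : ℕ} {H K : Subgroup G} (h : Gen j H) (h' : Gen k K) : Gen (j + k) (H ⊔ K) := by
  obtain ⟨a, rfl⟩ := h
  obtain ⟨b, rfl⟩ := h'
  exact ⟨Fin.append a b, gp_append a b⟩

/-- The isomorphism with the free group. -/
noncomputable def Basis.equiv {k : ℕ} {a : Fin k → G} {A : Subgroup G} (h : Basis a A) :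
    FreeGroup (Fin k) ≃* A :=
  (MonoidHom.ofInjective h.1).trans (MulEquiv.subgroupCongr ((lift_range a).trans h.2))

theorem Basis.equiv_apply {k : ℕ} {a : Fin k → G} {A : Subgroup G} (h : Basis a A)
    (w : FreeGroup (Fin k)) : ((h.equiv w : A) : G) = FreeGroup.lift a w := rfl

theorem Basis.gen {k : ℕ} {a : Fin k → G} {A : Subgroup G} (h : Basis a A) : Gen k A := ⟨a, h.2⟩

theorem Basis.card_le {k T : ℕ} {a : Fin k → G} {A : Subgroup G} (h : Basis a A) (hT : Gen T A) :
    k ≤ T := by
  obtain ⟨g, hg⟩ := hT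
  have hmem : ∀ i, g i ∈ A := fun i => by
    rw [← hg]
    exact Subgroup.subset_closure ⟨i, rfl⟩
  have htop : Subgroup.closure (Set.range fun i => (⟨g i, hmem i⟩ : A)) = ⊤ := by
    apply Subgroup.map_injective (Subgroup.subtype_injective A)
    rw [MonoidHom.map_closure, ← MonoidHom.range_eq_map, Subgroup.range_subtype, ← Set.range_comp]
    exact hg
  have := (Pool.Agent.Helper22.OR.card_le_of_gen h.equiv _ htop).2
  rwa [Nat.card_eq_fintype_card, Fintype.card_fin] at this

theorem exists_basis {k : ℕ} {A : Subgroup G} (φ : FreeGroup (Fin k) ≃* A) :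
    ∃ a : Fin k → G, Basis a A := by
  refine ⟨fun i => ((φ (FreeGroup.of i) : A) : G), ?_, ?_⟩
  · have h1 : FreeGroup.lift (fun i => ((φ (FreeGroup.of i) : A) : G)) =
        A.subtype.comp φ.toMonoidHom := by
      apply FreeGroup.ext_hom
      intro i
      simp
    rw [h1]
    exact (Subgroup.subtype_injective A).comp φ.injective
  · have h1 : (Set.range (fun i => ((φ (FreeGroup.of i) : A) : G))) =
        A.subtype.comp φ.toMonoidHom '' Set.range (FreeGroup.of (α := Fin k)) := by
      rw [← Set.range_comp]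
      rfl
    rw [h1, ← MonoidHom.map_closure, FreeGroup.closure_range_of, ← MonoidHom.range_eq_map]
    ext x
    constructor
    · rintro ⟨w, rfl⟩
      exact (φ w).2
    · intro hx
      exact ⟨φ.symm ⟨x, hx⟩, by simp⟩

theorem lift_comp {k : ℕ} (φ : G →* G') (a : Fin k → G) (w : FreeGroup (Fin k)) :
    FreeGroup.lift (fun i => φ (a i)) w = φ (FreeGroup.lift a w) := by
  have : FreeGroup.lift (fun i => φ (a i)) = φ.comp (FreeGroup.lift a) := by
    apply FreeGroup.ext_hom
    intro i
    simp
  rw [this]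
  rfl

theorem lift_castAdd {k l : ℕ} (a : Fin k → G) (b : Fin l → G) (w : FreeGroup (Fin k)) :
    FreeGroup.lift (Fin.append a b) (FreeGroup.map (Fin.castAdd l) w) = FreeGroup.lift a w := by
  have : (FreeGroup.lift (Fin.append a b)).comp (FreeGroup.map (Fin.castAdd l)) =
      FreeGroup.lift a := by
    apply FreeGroup.ext_hom
    intro i
    simp
  exact DFunLike.congr_fun this w

private theorem bas_letters {k l : ℕ} (h : FreeGroup (Fin k)) :
    ∀ x ∈ (FreeGroup.map (Fin.castAdd l) h).toWord, (x.1 : ℕ) < k := by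
  intro x hx
  have h1 : FreeGroup.map (Fin.castAdd l) h =
      FreeGroup.mk (h.toWord.map (fun x => (Fin.castAdd l x.1, x.2))) := by
    conv_lhs => rw [← FreeGroup.mk_toWord (x := h)]
    rw [FreeGroup.map.mk]
  rw [h1, FreeGroup.toWord_mk] at hx
  have h2 := (FreeGroup.Red.sublist (FreeGroup.reduce.red
    (L := h.toWord.map (fun x => (Fin.castAdd l x.1, x.2))))).subset hx
  obtain ⟨y, _, hy⟩ := List.mem_map.mp h2
  rw [← hy]
  exact y.1.2

/-- If `a, b` is a basis and `c` is a basis of a subgroup of `⟨a⟩` then `c, b` is a basis. -/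
theorem append_inj {m q k : ℕ} {a : Fin m → G} {b : Fin q → G} {c : Fin k → G}
    (hab : Function.Injective (FreeGroup.lift (Fin.append a b)))
    (hc : Function.Injective (FreeGroup.lift c)) (hca : ∀ i, c i ∈ gp a) :
    Function.Injective (FreeGroup.lift (Fin.append c b)) := by
  classical
  have h1 : ∀ i, ∃ u, FreeGroup.lift a u = c i := fun i => (mem_gp_iff a _).mp (hca i)
  choose u hu using h1
  set v : Fin k → FreeGroup (Fin (m + q)) := fun i => FreeGroup.map (Fin.castAdd q) (u i) with hv
  have hv1 : ∀ i, FreeGroup.lift (Fin.append a b) (v i) = c i := fun i => by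
    rw [hv, lift_castAdd, hu]
  have hvinj : Function.Injective (FreeGroup.lift v) := by
    have h2 : ∀ w, FreeGroup.lift c w = FreeGroup.lift (Fin.append a b) (FreeGroup.lift v w) := by
      intro w
      rw [← lift_comp]
      simp only [hv1]
    intro x y hxy
    apply hc
    rw [h2, h2, hxy]
  have hB : Basis v (gp v) := ⟨hvinj, rfl⟩
  set S : Set (Fin (m + q)) := {i | m ≤ (i : ℕ)} with hS
  have hBS : ∀ w ∈ gp v, ∀ x ∈ w.toWord, x.1 ∉ S := by
    intro w hw x hx
    obtain ⟨z, rfl⟩ := (mem_gp_iff v w).mp hw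
    have h2 : FreeGroup.lift v z = FreeGroup.map (Fin.castAdd q) (FreeGroup.lift u z) := by
      rw [hv, lift_comp]
    rw [h2] at hx
    have := bas_letters _ x hx
    simp only [hS, Set.mem_setOf_eq, not_le]
    exact this
  have h3 := Pool.Agent.Helper22.OR.fac_inj S (gp v) (fun w hw => ⟨fun x l h => hBS w hw x (by rw [h]; simp),
    fun x l h => hBS w hw x (by rw [h]; simp)⟩) (Fin k) hB.equiv
  let ρ : Fin (k + q) → ↥S ⊕ Fin k := Fin.addCases (fun i => Sum.inr i)
    (fun i => Sum.inl ⟨Fin.natAdd m i, by simp [hS]⟩)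
  have hρl : ∀ i : Fin k, ρ (Fin.castAdd q i) = Sum.inr i := fun i => by
    simp only [ρ, Fin.addCases_left]
  have hρr : ∀ i : Fin q, ρ (Fin.natAdd k i) = Sum.inl ⟨Fin.natAdd m i, by simp [hS]⟩ := fun i => by
    simp only [ρ, Fin.addCases_right]
  have hρ : Function.Injective ρ := by
    intro i j
    refine Fin.addCases (fun i => ?_) (fun i => ?_) i <;>
      refine Fin.addCases (fun j => ?_) (fun j => ?_) j
    · rw [hρl, hρl]
      intro h
      rw [Sum.inr.inj h]
    · rw [hρl, hρr]
      exact fun h => absurd h (by simp)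
    · rw [hρl, hρr]
      exact fun h => absurd h (by simp)
    · rw [hρr, hρr]
      intro h
      have h4 := congrArg Subtype.val (Sum.inl.inj h)
      have h5 : i = j := by
        have h6 := congrArg Fin.val h4
        simp only [Fin.val_natAdd] at h6
        exact Fin.ext (by omega)
      rw [h5]
  have h4 : FreeGroup.lift (Fin.append c b) = (FreeGroup.lift (Fin.append a b)).comp
      ((FreeGroup.lift (Sum.elim (fun i : ↥S => FreeGroup.of (i : Fin (m + q)))
      (fun x : Fin k => ((hB.equiv (FreeGroup.of x) : ↥(gp v)) : FreeGroup (Fin (m + q)))))).comp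
        (FreeGroup.map ρ)) := by
    apply FreeGroup.ext_hom
    intro i
    refine Fin.addCases (fun i => ?_) (fun i => ?_) i
    · simp only [MonoidHom.comp_apply, FreeGroup.map.of, FreeGroup.lift_apply_of, hρl,
        Sum.elim_inr, Fin.append_left, hB.equiv_apply]
      exact (hv1 i).symm
    · simp only [MonoidHom.comp_apply, FreeGroup.map.of, FreeGroup.lift_apply_of, hρr,
        Sum.elim_inl, Fin.append_right]
  rw [h4]
  exact hab.comp (h3.comp (FreeGroup.map_injective hρ))

/-- `Filled` is reflected by injective homomorphisms. -/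
theorem filled_reflect {k : ℕ} {H A : Subgroup G} (φ : G →* G') (hφ : Function.Injective φ)
    (h : Filled k (H.map φ) (A.map φ)) : Filled k H A := by
  obtain ⟨h1, ⟨g, hg⟩, h3⟩ := h
  refine ⟨(Subgroup.map_le_map_iff_of_injective hφ).mp h1, ?_, ?_⟩
  · have h4 : ∀ i, ∃ x, x ∈ A ∧ φ x = g i := by
      intro i
      have : g i ∈ A.map φ := by
        rw [← hg]
        exact Subgroup.subset_closure ⟨i, rfl⟩
      exact this
    choose x hx1 hx2 using h4
    refine ⟨x, ?_⟩
    apply Subgroup.map_injective hφ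
    rw [← hg]
    have := gp_map φ x
    simp only [hx2] at this
    exact this
  · intro j K u hj hK hKu hHK
    refine h3 j (K.map φ) (φ u) hj ?_ ?_ (Subgroup.map_mono hHK)
    · obtain ⟨x, hx⟩ := hK
      refine ⟨fun i => φ (x i), ?_⟩
      rw [← hx]
      exact (gp_map φ x).symm
    · rw [← hKu, Subgroup.map_sup, MonoidHom.map_closure, Set.image_singleton]

theorem exists_filled {N : ℕ} {H : Subgroup G} (h : Gen N H) : ∃ A, FilledLe N H A := by
  classical
  have hex : ∃ j, ∃ A : Subgroup G, Gen j A ∧ H ≤ A := ⟨N, H, h, le_rfl⟩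
  obtain ⟨A, hA1, hA2⟩ := Nat.find_spec hex
  refine ⟨A, Nat.find hex, Nat.find_min' hex ⟨H, h, le_rfl⟩, hA2, hA1, ?_⟩
  intro j K u hj hK _ hHK
  exact Nat.find_min hex (m := j) (by omega) ⟨K, hK, hHK⟩

theorem self_le_hull {N : ℕ} {H : Subgroup G} (h : Gen N H) : H ≤ Hull N H := by
  obtain ⟨A, hA⟩ := exists_filled h
  have h1 : H ≤ A := by
    obtain ⟨k, _, hk⟩ := hA
    exact hk.1
  exact h1.trans (le_hull hA)

end Pool.Agent.Helper22.HL
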