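import Pool.Agent.Helper72.BH.FillDefs

/-!
# Definitions for the game

`Env R G`: what is used of the group `G` (a free group or a random group) up to the scale `R`.
`Hull N H`: the subgroup generated by all subgroups of rank at most `N` filled by `H`.
`Sim N g h`: the tuples `g` and `h` have isomorphic hulls.
-/

set_option autoImplicit false

namespace Pool.Agent.Helper22.HL

open Pool.Agent.Helper22.OR (Gen)
open Pool.Agent.Helper72.BH (Filled FilledLe)

variable {G G' : Type} [Group G] [Group G']

/-- `a` is a free basis of the subgroup `A`. -/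
def Basis {k : ℕ} (a : Fin k → G) (A : Subgroup G) : Prop :=
  Function.Injective (FreeGroup.lift a) ∧ Subgroup.closure (Set.range a) = A

/-- The hull of level `N`. -/
def Hull (N : ℕ) (H : Subgroup G) : Subgroup G := ⨆ A ∈ {A : Subgroup G | FilledLe N H A}, A

theorem le_hull {N : ℕ} {H A : Subgroup G} (h : FilledLe N H A) : A ≤ Hull N H :=
  le_iSup₂_of_le A h le_rfl

theorem hull_le {N : ℕ} {H M : Subgroup G} (h : ∀ A, FilledLe N H A → A ≤ M) : Hull N H ≤ M :=
  iSup₂_le h

/-- The subgroup generated by a tuple. -/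
def gp {a : ℕ} (g : Fin a → G) : Subgroup G := Subgroup.closure (Set.range g)

theorem mem_gp {a : ℕ} (g : Fin a → G) (i : Fin a) : g i ∈ gp g := Subgroup.subset_closure ⟨i, rfl⟩

/-- The properties of `G` which are used in the game up to the scale `R`. -/
structure Env (R : ℕ) (G : Type) [Group G] : Prop where
  /-- subgroups with `k ≤ R` generators are free of rank at most `k` -/
  free : ∀ k ≤ R, ∀ J : Subgroup G, Gen k J → ∃ m ≤ k, Nonempty (FreeGroup (Fin m) ≃* J)
  /-- a finitely generated subgroup fills finitely many subgroups of bounded rank -/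
  fin : ∀ H : Subgroup G, H.FG → {A : Subgroup G | FilledLe R H A}.Finite
  /-- generic elements -/
  gen : ∀ T q : ℕ, (T + 1) * (q + 1) ≤ R → ∀ H : Subgroup G, H.FG → ∃ b : Fin q → G,
    ∀ J : Subgroup G, Gen T J → H ≤ J → (∀ i, b i ∈ J) → ∃ (c : ℕ) (a : Fin c → G),
      Basis (Fin.append a b) J ∧ H ≤ Subgroup.closure (Set.range a)

theorem Env.mono {R R' : ℕ} (h : R' ≤ R) (E : Env R G) : Env R' G where
  free := fun k hk J hJ => E.free k (hk.trans h) J hJ
  fin := fun H hH => (E.fin H hH).subset fun _ hA => hA.mono h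
  gen := fun T q hT H hH => E.gen T q (hT.trans h) H hH

/-- The hulls of level `N` of `g` and `h` are isomorphic by an isomorphism which maps `g` to `h`. -/
def Sim (N : ℕ) {a : ℕ} (g : Fin a → G) (h : Fin a → G') : Prop :=
  ∃ θ : ↥(Hull N (gp g)) ≃* ↥(Hull N (gp h)),
    ∀ i, ∃ x : ↥(Hull N (gp g)), (x : G) = g i ∧ ((θ x : ↥(Hull N (gp h))) : G') = h i

theorem Sim.symm {N a : ℕ} {g : Fin a → G} {h : Fin a → G'} (s : Sim N g h) : Sim N h g := by
  obtain ⟨θ, hθ⟩ := s
  refine ⟨θ.symm, fun i => ?_⟩
  obtain ⟨x, h1, h2⟩ := hθ i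
  exact ⟨θ x, h2, by rw [MulEquiv.symm_apply_apply]; exact h1⟩

end Pool.Agent.Helper22.HL
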